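import Pool.Agent.Work.MP_72ebf0_an.Primal
import Pool.Agent.Work.MP_72ebf0_an.Dual

/-!
LR-separated cellular automata over `ZMod p` whose middle part is a sum of one-variable maps.
-/

namespace Pool.Agent.Results.MP_72ebf0_an.Additive

open Pool.Agent.Work.MP_72ebf0_an

theorem result (p : ℕ) [Fact p.Prime] (hp : 3 ≤ p) (ρ : ℕ) (l r : Fin (2 * ρ + 1)) (hlr : l < r)
    (a b : ZMod p) (ha : a ≠ 0) (hb : b ≠ 0) (q s : ℕ) (hq : 1 ≤ q) (hs : 1 ≤ s)
    (c : ZMod p) (φ : Fin (2 * ρ + 1) → ZMod p → ZMod p)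
    (F : (ℤ → ZMod p) → ℤ → ZMod p)
    (hF : ∀ (x : ℤ → ZMod p) (i : ℤ), F x i =
      (c + ∑ j ∈ Finset.Ioo l r, φ j (x (i - ρ + (j : ℕ)))) +
        a * x (i - ρ + (l : ℕ)) ^ q + b * x (i - ρ + (r : ℕ)) ^ s)
    (hsurj : Function.Surjective F) :
    Nat.Coprime q (p - 1) ∨ Nat.Coprime s (p - 1) := by
  classical
  by_contra hno
  push Not at hno
  have hlr' : (l : ℕ) < r := hlr
  have h1 := reduce ρ l r hlr (fun x => a * x ^ q) (fun x => b * x ^ s)
    (fun x => c + ∑ j ∈ Finset.Ioo l r, φ j (x j))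
    (fun x y h => by
      congr 1
      refine Finset.sum_congr rfl fun j hj => ?_
      rw [Finset.mem_Ioo] at hj
      rw [h j hj.1 hj.2]) F hF hsurj
  obtain ⟨m, hm⟩ : ∃ m, (r : ℕ) - l = m + 1 := ⟨r - l - 1, by omega⟩
  let ψ : Fin ((r : ℕ) - l + 1) → ZMod p → ZMod p := fun j x =>
    if j = 0 then a * x ^ q else if j = Fin.last _ then b * x ^ s else
      φ ⟨l + j, by have := j.2; have := r.2; omega⟩ x
  have hl0 : (Fin.last ((r : ℕ) - l)) ≠ 0 := by
    intro h
    have := congrArg Fin.val h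
    simp only [Fin.val_last, Fin.val_zero] at this
    omega
  refine additive_not_surj hp (m := (r : ℕ) - l) (by omega) ψ c ha hb hq hs hno.1 hno.2
    (fun x => by simp [ψ]) (fun x => by simp [ψ, hl0]) ?_
  convert h1 using 3 with w
  rw [← Finset.add_sum_erase _ _ (Finset.mem_univ (0 : Fin ((r : ℕ) - l + 1))),
    ← Finset.add_sum_erase _ _ (a := Fin.last _) (by simp [hl0])]
  have e1 : ∑ j ∈ (Finset.univ.erase 0).erase (Fin.last _), ψ j (w j) =
      ∑ j ∈ Finset.Ioo l r, φ j
        (if hj : (l : ℕ) ≤ j ∧ (j : ℕ) ≤ r then w ⟨j - l, by omega⟩ else 0) := by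
    refine Finset.sum_bij (fun j _ => ⟨l + j, by have := j.2; have := r.2; omega⟩) ?_ ?_ ?_ ?_
    · intro j hj
      simp only [Finset.mem_erase, Finset.mem_univ, and_true, Ne, Fin.ext_iff, Fin.val_last,
        Fin.val_zero] at hj
      have := j.2
      simp only [Finset.mem_Ioo, Fin.lt_def]
      omega
    · intro j _ k _ h
      simp only [Fin.mk.injEq] at h
      exact Fin.ext (by omega)
    · intro j hj
      simp only [Finset.mem_Ioo, Fin.lt_def] at hj
      refine ⟨⟨j - l, by omega⟩, ?_, Fin.ext (by simp only; omega)⟩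
      simp only [Finset.mem_erase, Finset.mem_univ, and_true, Ne, Fin.ext_iff, Fin.val_last,
        Fin.val_zero]
      omega
    · intro j hj
      have hj' := hj
      simp only [Finset.mem_erase, Finset.mem_univ, and_true] at hj
      simp only [Finset.mem_erase, Finset.mem_univ, and_true, Ne, Fin.ext_iff, Fin.val_last,
        Fin.val_zero] at hj'
      have := j.2
      rw [dif_pos (by simp only; omega)]
      simp [ψ, hj.1, hj.2]
  rw [e1]
  simp only [ψ, if_true, hl0, if_false]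
  ring

end Pool.Agent.Results.MP_72ebf0_an.Additive
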