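import Pool.Agent.Work.MP_72ebf0_an.HallTwo

/-!
LR-separated cellular automata over `ZMod p` with both exponents of gcd two.
-/

namespace Pool.Agent.Results.MP_72ebf0_an.GcdTwo

open Pool.Agent.Work.MP_72ebf0_an

theorem result (p : ℕ) [Fact p.Prime] (hp : 3 ≤ p) (ρ : ℕ) (l r : Fin (2 * ρ + 1)) (hlr : l < r)
    (a b : ZMod p) (ha : a ≠ 0) (hb : b ≠ 0) (q s : ℕ) (hq : 1 ≤ q) (hs : 1 ≤ s)
    (π : (Fin (2 * ρ + 1) → ZMod p) → ZMod p)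
    (hπ : ∀ x y, (∀ j, l < j → j < r → x j = y j) → π x = π y)
    (F : (ℤ → ZMod p) → ℤ → ZMod p)
    (hF : ∀ (x : ℤ → ZMod p) (i : ℤ), F x i = π (fun j => x (i - ρ + (j : ℕ))) +
      a * x (i - ρ + (l : ℕ)) ^ q + b * x (i - ρ + (r : ℕ)) ^ s)
    (h1 : Nat.gcd q (p - 1) = 2) (h2 : Nat.gcd s (p - 1) = 2) :
    ¬ Function.Surjective F :=
  centred_of_hall hp ρ l r hlr ha hb (by rw [Nat.Coprime, h1]; norm_num)
    (by rw [Nat.Coprime, h2]; norm_num) π hπ F hF (hall_two hp ha hb hq hs h1 h2)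

end Pool.Agent.Results.MP_72ebf0_an.GcdTwo
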