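import Pool.Agent.Work.MP_72ebf0_an.HallLarge

/-!
LR-separated cellular automata over `ZMod p` for `p` large relative to the two gcds.
-/

namespace Pool.Agent.Results.MP_72ebf0_an.LargePrime

open Pool.Agent.Work.MP_72ebf0_an

theorem result (p : ℕ) [Fact p.Prime] (hp : 3 ≤ p) (ρ : ℕ) (l r : Fin (2 * ρ + 1)) (hlr : l < r)
    (a b : ZMod p) (ha : a ≠ 0) (hb : b ≠ 0) (q s : ℕ) (hq : 1 ≤ q) (hs : 1 ≤ s)
    (π : (Fin (2 * ρ + 1) → ZMod p) → ZMod p)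
    (hπ : ∀ x y, (∀ j, l < j → j < r → x j = y j) → π x = π y)
    (F : (ℤ → ZMod p) → ℤ → ZMod p)
    (hF : ∀ (x : ℤ → ZMod p) (i : ℤ), F x i = π (fun j => x (i - ρ + (j : ℕ))) +
      a * x (i - ρ + (l : ℕ)) ^ q + b * x (i - ρ + (r : ℕ)) ^ s)
    (hbig : Nat.lcm (Nat.gcd q (p - 1)) (Nat.gcd s (p - 1)) ^ 2 *
      (Nat.gcd q (p - 1) ^ 3 + Nat.gcd s (p - 1) ^ 3) < p)
    (hsurj : Function.Surjective F) :
    Nat.Coprime q (p - 1) ∨ Nat.Coprime s (p - 1) := by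
  by_contra hno
  push Not at hno
  have h1 : 0 < Nat.gcd s (p - 1) := Nat.gcd_pos_of_pos_left _ hs
  have h2 : Nat.gcd s (p - 1) ≠ 1 := hno.2
  exact centred_of_hall hp ρ l r hlr ha hb hno.1 hno.2 π hπ F hF
    (hall_large ha hb hq hs (by omega) hbig) hsurj

end Pool.Agent.Results.MP_72ebf0_an.LargePrime
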